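import Pool.Prelude.Def_F_ee259b87
import Pool.Agent.Lib.MP_ccb155_nt.Gap
import Pool.Agent.Lib.MP_ccb155_nt.Count

set_option autoImplicit false

open Finset Filter Topology Nebf1142c

namespace Pool.Agent.Results.MP_ccb155_nt.EveryConstant

open Pool.Agent.Lib.MP_ccb155_nt

lemma exc_iff (c : ℝ) (n : ℕ) :
    Exc c n ↔ nearestInt (Real.exp n) ≤ Real.exp (-c * n) := by
  unfold Exc nearestInt
  rw [UnitAddCircle.norm_eq]

/-- at most m exceptions in a short window -/
theorem window (c : ℝ) (hc : 0 < c) (m : ℕ) (hm : 1 < c * m) :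
    ∃ τ : ℝ, 0 < τ ∧ τ < 1 ∧ ∃ n₀ : ℕ, ∀ n : ℕ, n₀ ≤ n → ∀ S : Finset ℕ,
      (∀ k ∈ S, Exc c k ∧ n ≤ k ∧ (k : ℝ) < n + (n : ℝ) ^ τ) → S.card ≤ m := by
  have hm1 : 1 ≤ m := by
    rcases Nat.eq_zero_or_pos m with h | h
    · subst h; simp at hm; linarith
    · exact h
  have hm' : (1 : ℝ) ≤ m := by exact_mod_cast hm1
  have hm0 : (0 : ℝ) < m := by linarith
  obtain ⟨y, hy1, hy2⟩ : ∃ y : ℝ, 1 / (m : ℝ) < y ∧ y < c := by
    apply _root_.exists_between
    rw [div_lt_iff₀ hm0]; exact hm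
  have hy0 : 0 < y := lt_trans (by positivity) hy1
  rw [div_lt_iff₀ hm0] at hy1
  -- η and τ
  set W : ℝ := ((m : ℝ) + 1) * y * (1 + (m + 1) ^ 2) with hW
  have hWpos : 0 < W := by rw [hW]; positivity
  obtain ⟨g, hg0, hg1, hg2⟩ : ∃ g : ℝ, 0 < g ∧ g ≤ m * y - 1 ∧ g ≤ c - y := by
    refine ⟨min (m * y - 1) (c - y), ?_, min_le_left _ _, min_le_right _ _⟩
    apply lt_min <;> linarith
  obtain ⟨η, hη⟩ : ∃ η : ℝ, η = g / 8 := ⟨_, rfl⟩
  have hη0 : 0 < η := by rw [hη]; positivity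
  obtain ⟨τ, hτ0, hτ1, hτW⟩ : ∃ τ : ℝ, 0 < τ ∧ τ < 1 ∧ W * τ ≤ η := by
    refine ⟨min (1 / 2) (η / W), by positivity, lt_of_le_of_lt (min_le_left _ _) (by norm_num), ?_⟩
    calc W * min (1 / 2) (η / W) ≤ W * (η / W) := by gcongr; exact min_le_right _ _
      _ = η := mul_div_cancel₀ _ hWpos.ne'
  obtain ⟨δ, hδ⟩ : ∃ δ : ℝ, δ = (m + 1) ^ 2 * τ := ⟨_, rfl⟩
  have hδ0 : 0 ≤ δ := by rw [hδ]; positivity
  have hW1 : ((m : ℝ) + 1) * y * (τ + δ) ≤ η := by
    refine le_trans (le_of_eq ?_) hτW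
    rw [hδ, hW]; ring
  have hW2 : ((m : ℝ) + 1) * y * δ ≤ η := by
    refine le_trans ?_ hW1
    gcongr; linarith
  obtain ⟨ε1, hε1, hε11, hcore⟩ := core (m + 1) (by omega) y δ τ 2 hy0 hδ0 hτ0.le hτ1
    (by norm_num) η hη0
  have G1 := ev_pow_log y ((1 - τ) / 2) hy0 (by linarith)
  have G2 : ∀ᶠ n : ℕ in atTop, 2 * ((n : ℝ) ^ τ) ≤ ε1 * (n : ℝ) ^ (1 - (1 - τ) / 2) := by
    have h1 : Tendsto (fun x : ℝ => x ^ (-((1 - τ) / 2))) atTop (𝓝 0) :=
      tendsto_rpow_neg_atTop (by linarith)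
    have h2 := (h1.comp tendsto_natCast_atTop_atTop).eventually
      (gt_mem_nhds (show (0 : ℝ) < ε1 / 2 by positivity))
    filter_upwards [h2, eventually_gt_atTop 0] with n hn hn0
    have hn' : (0 : ℝ) < n := by exact_mod_cast hn0
    simp only [Function.comp_apply] at hn
    have h5 : (n : ℝ) ^ τ = (n : ℝ) ^ (-((1 - τ) / 2)) * (n : ℝ) ^ (1 - (1 - τ) / 2) := by
      rw [← Real.rpow_add hn']; congr 1; ring
    have h6 : (n : ℝ) ^ τ ≤ ε1 / 2 * (n : ℝ) ^ (1 - (1 - τ) / 2) := by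
      rw [h5]; gcongr
    linarith
  have G4 := ev_exp_small 1 η hη0
  have G5 := ev_exp_small ((m + 1) * Real.exp 1) η hη0
  obtain ⟨n₀, hn₀⟩ := eventually_atTop.1 (hcore.and (G1.and (G2.and (G4.and
    (G5.and (eventually_gt_atTop 1))))))
  refine ⟨τ, hτ0, hτ1, n₀, fun n hn S hS => ?_⟩
  obtain ⟨H, g1, g2, g4, g5, hn1⟩ := hn₀ n hn
  by_contra hcon
  push Not at hcon
  -- choose m + 1 elements
  obtain ⟨S', hS', hcard⟩ := Finset.exists_subset_card_eq (show m + 1 ≤ S.card from hcon)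
  set e := S'.orderEmbOfFin hcard with he
  have heS : ∀ i, e i ∈ S := fun i => hS' (Finset.orderEmbOfFin_mem S' hcard i)
  have hn0 : (0 : ℝ) < n := by
    have : 0 < n := by omega
    exact_mod_cast this
  have hn1' : (1 : ℝ) ≤ n := by exact_mod_cast hn1.le
  have hnτ1 : 1 ≤ (n : ℝ) ^ τ := Real.one_le_rpow hn1' hτ0.le
  set L : ℕ := ⌊(n : ℝ) ^ τ⌋₊ with hL
  have hL1 : 1 ≤ L := by rw [hL]; exact Nat.le_floor (by simpa using hnτ1)
  have hLτ : (L : ℝ) ≤ (n : ℝ) ^ τ := Nat.floor_le (by positivity)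
  have hle : ∀ i, n ≤ e i := fun i => (hS _ (heS i)).2.1
  have hd : ∀ i, e i - n ≤ L := by
    intro i
    apply Nat.le_floor
    rw [Nat.cast_sub (hle i)]
    have := (hS _ (heS i)).2.2
    linarith
  set h : Fin (m + 1) → ℤ := fun i => ((e i - n : ℕ) : ℤ) with hh
  have hinj : Function.Injective h := by
    intro a b hab
    have h1 : e a - n = e b - n := by simpa [hh] using hab
    have h2 := hle a
    have h3 := hle b
    apply e.injective
    omega
  have habs : ∀ i, |h i| ≤ L := by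
    intro i
    have : |h i| = ((e i - n : ℕ) : ℤ) := abs_of_nonneg (by positivity)
    rw [this]
    exact_mod_cast hd i
  have hdiff : ∀ i j, |h i - h j| ≤ L := by
    intro i j
    have h1 := hd i
    have h2 := hd j
    have h3 : (0 : ℤ) ≤ h i := by simp only [hh]; positivity
    have h4 : (0 : ℤ) ≤ h j := by simp only [hh]; positivity
    have h5 : h i ≤ L := by simp only [hh]; exact_mod_cast h1
    have h6 : h j ≤ L := by simp only [hh]; exact_mod_cast h2
    rw [abs_le]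
    constructor <;> linarith
  set Δ : ℤ := ∏ i, ∏ j ∈ univ.erase i, (h i - h j) with hΔdef
  have hΔ : ∀ i j : Fin (m + 1), j ≠ i → h i - h j ∣ Δ ∧ h i - h j ≠ 0 := by
    intro i j hij
    refine ⟨?_, sub_ne_zero.2 (fun e => hij (hinj e).symm)⟩
    rw [hΔdef]
    exact (Finset.dvd_prod_of_mem (fun j => h i - h j) (Finset.mem_erase.2 ⟨hij, mem_univ j⟩)).trans
      (Finset.dvd_prod_of_mem (fun i => ∏ j ∈ univ.erase i, (h i - h j)) (mem_univ i))
  have hΔabs : |(Δ : ℝ)| ≤ 2 * (n : ℝ) ^ δ := by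
    have h1 : |(Δ : ℝ)| ≤ ∏ i : Fin (m + 1), ((L : ℝ) ^ (m + 1)) := by
      rw [hΔdef]
      push_cast
      rw [Finset.abs_prod]
      apply Finset.prod_le_prod
      · intro i _; exact abs_nonneg _
      · intro i _
        rw [Finset.abs_prod]
        calc ∏ j ∈ univ.erase i, |((h i : ℝ) - h j)| ≤ ∏ j ∈ univ.erase i, (L : ℝ) := by
              apply Finset.prod_le_prod
              · intro j _; exact abs_nonneg _
              · intro j _
                have := hdiff i j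
                exact_mod_cast this
          _ = (L : ℝ) ^ (univ.erase i).card := by rw [Finset.prod_const]
          _ ≤ (L : ℝ) ^ (m + 1) := by
              apply pow_le_pow_right₀ (by exact_mod_cast hL1)
              refine (Finset.card_le_card (Finset.erase_subset _ _)).trans ?_
              simp
    have h2 : ∏ i : Fin (m + 1), ((L : ℝ) ^ (m + 1)) = (L : ℝ) ^ ((m + 1) * (m + 1)) := by
      rw [Finset.prod_const, card_univ, Fintype.card_fin, ← pow_mul]
    rw [h2] at h1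
    have h3 : (L : ℝ) ^ ((m + 1) * (m + 1)) ≤ (n : ℝ) ^ δ := by
      calc (L : ℝ) ^ ((m + 1) * (m + 1)) ≤ ((n : ℝ) ^ τ) ^ ((m + 1) * (m + 1)) :=
            pow_le_pow_left₀ (by positivity) hLτ _
        _ = (n : ℝ) ^ δ := by
            rw [← Real.rpow_natCast, ← Real.rpow_mul hn0.le, hδ]
            congr 1; push_cast; ring
    have h4 : 0 ≤ (n : ℝ) ^ δ := by positivity
    linarith
  have hx0 : 0 ≤ y * n / Real.log n := by
    apply div_nonneg (by positivity)
    exact Real.log_nonneg hn1'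
  obtain ⟨p, l, hl, hlp, hkl, hp1, hp2⟩ := choose_p 0 L (by omega) _ hx0
  have hpx : (1 - ε1) * (y * n / Real.log n) ≤ p := by
    have h1 : 2 * (L : ℝ) ≤ ε1 * (y * n / Real.log n) := by
      calc 2 * (L : ℝ) ≤ 2 * (n : ℝ) ^ τ := by linarith
        _ ≤ ε1 * (n : ℝ) ^ (1 - (1 - τ) / 2) := g2
        _ ≤ ε1 * (y * n / Real.log n) := by gcongr
    push_cast at hp1
    linarith
  obtain ⟨B, hB, hB1, hB2⟩ := forms (ι := Fin (m + 1)) (h := h) hinj (L := L) hL1 habs
    (Δ := Δ) hΔ (k := 1) (p := p) hl hlp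
    (fun hd => hl.one_lt.ne' (Nat.dvd_one.1 hd))
    (fun hd => by
      have hlZ : Prime (l : ℤ) := Nat.prime_iff_prime_int.1 hl
      rw [hΔdef] at hd
      obtain ⟨i, _, hi⟩ := (Prime.dvd_finsetProd_iff hlZ _).1 hd
      obtain ⟨j, hj, hij⟩ := (Prime.dvd_finsetProd_iff hlZ _).1 hi
      have h1 := (hΔ i j (Finset.ne_of_mem_erase hj)).2
      have h2 := hdiff i j
      have h3 := Int.le_of_dvd (abs_pos.2 h1) ((dvd_abs _ _).2 hij)
      omega)
  rw [Fintype.card_fin] at hB1 hB2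
  -- the integers
  set A : Fin (m + 1) → ℤ := fun i => round (Real.exp (e i : ℕ)) with hA
  have hEA : ∀ i, |(A i : ℝ) - Real.exp n * Real.exp (h i * (1 : ℕ))| ≤ Real.exp (-c * n) := by
    intro i
    have h1 := (hS _ (heS i)).1
    have h2 : Real.exp n * Real.exp (h i * (1 : ℕ)) = Real.exp (e i : ℕ) := by
      rw [← Real.exp_add]
      congr 1
      simp only [hh]
      push_cast [Nat.cast_sub (hle i)]
      ring
    rw [h2, abs_sub_comm]
    refine h1.trans (Real.exp_le_exp.2 ?_)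
    have : (n : ℝ) ≤ (e i : ℕ) := by exact_mod_cast hle i
    nlinarith
  have hAne : A ≠ 0 := by
    intro h0
    have h1 := congrFun h0 0
    have h2 := (hS _ (heS 0)).1
    unfold Exc at h2
    have h3 : ((round (Real.exp (e 0 : ℕ)) : ℤ) : ℝ) = 0 := by
      have : A 0 = 0 := h1
      simp only [hA] at this
      rw [this]; simp
    rw [h3, sub_zero, abs_of_pos (Real.exp_pos _)] at h2
    have h4 := Real.exp_le_exp.1 h2
    have h5 : (1 : ℝ) ≤ (e 0 : ℕ) := by
      have := hle 0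
      have h6 : 1 ≤ e 0 := by omega
      exact_mod_cast h6
    nlinarith
  obtain ⟨j, hj⟩ := exists_form_ne_zero hB hAne
  have hone : (1 : ℝ) ≤ |∑ i, (B j i : ℝ) * (A i : ℝ)| := by
    have h1 : (1 : ℤ) ≤ |∑ i, B j i * A i| := Int.one_le_abs hj
    exact_mod_cast h1
  obtain ⟨c1, c2⟩ := H p hpx hp2 |(Δ : ℝ)| (2 * L * (1 : ℕ)) (abs_nonneg _) hΔabs
    (by positivity) (by push_cast; linarith)
  have hfirst : |∑ i, (B j i : ℝ) * (Real.exp n * Real.exp (h i * (1 : ℕ)))| < 1 / 2 := by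
    have h1 : ∑ i, (B j i : ℝ) * (Real.exp n * Real.exp (h i * (1 : ℕ))) =
        Real.exp n * ∑ i, (B j i : ℝ) * Real.exp (h i * (1 : ℕ)) := by
      rw [Finset.mul_sum]
      apply Finset.sum_congr rfl
      intro i _
      ring
    rw [h1, abs_mul, abs_of_pos (Real.exp_pos _)]
    calc Real.exp n * |∑ i, (B j i : ℝ) * Real.exp (h i * (1 : ℕ))|
        ≤ Real.exp n * Real.exp ((-((m + 1 : ℕ) - 1) * y + (m + 1 : ℕ) * y * (τ + δ) + η) * n) := by
          gcongr
          exact (hB2 j).trans c2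
      _ = Real.exp ((1 - m * y + (m + 1) * y * (τ + δ) + η) * n) := by
          rw [← Real.exp_add]; congr 1; push_cast; ring
      _ ≤ 1 * Real.exp (-η * n) := by
          rw [one_mul]
          apply Real.exp_le_exp.2
          apply mul_le_mul_of_nonneg_right _ hn0.le
          linarith
      _ < 1 / 2 := g4
  have hsecond : ∑ i, |(B j i : ℝ)| *
      |(A i : ℝ) - Real.exp n * Real.exp (h i * (1 : ℕ))| < 1 / 2 := by
    have hBb : ∀ i, |(B j i : ℝ)| ≤ Real.exp ((y + (m + 1) * y * δ + η) * n) * Real.exp 1 := by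
      intro i
      refine (hB1 j i).trans ?_
      rw [← mul_assoc, Nat.cast_one]
      apply mul_le_mul_of_nonneg_right _ (Real.exp_pos _).le
      refine c1.trans (le_of_eq ?_)
      congr 1; push_cast; ring
    calc ∑ i, |(B j i : ℝ)| * |(A i : ℝ) - Real.exp n * Real.exp (h i * (1 : ℕ))|
        ≤ ∑ i : Fin (m + 1), (Real.exp ((y + (m + 1) * y * δ + η) * n) * Real.exp 1) *
          Real.exp (-c * n) := by
          apply Finset.sum_le_sum
          intro i _
          exact mul_le_mul (hBb i) (hEA i) (abs_nonneg _) (by positivity)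
      _ = ((m + 1) * Real.exp 1) * Real.exp ((y + (m + 1) * y * δ + η - c) * n) := by
          rw [Finset.sum_const, card_univ, Fintype.card_fin, nsmul_eq_mul]
          have : Real.exp ((y + (m + 1) * y * δ + η - c) * n) =
              Real.exp ((y + (m + 1) * y * δ + η) * n) * Real.exp (-c * n) := by
            rw [← Real.exp_add]; congr 1; ring
          rw [this]
          push_cast
          ring
      _ ≤ ((m + 1) * Real.exp 1) * Real.exp (-η * n) := by
          gcongr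
          linarith
      _ < 1 / 2 := g5
  have htot : |∑ i, (B j i : ℝ) * (A i : ℝ)| ≤
      |∑ i, (B j i : ℝ) * (Real.exp n * Real.exp (h i * (1 : ℕ)))| +
      ∑ i, |(B j i : ℝ)| * |(A i : ℝ) - Real.exp n * Real.exp (h i * (1 : ℕ))| := by
    have h1 : ∑ i, (B j i : ℝ) * (A i : ℝ) =
        ∑ i, (B j i : ℝ) * (Real.exp n * Real.exp (h i * (1 : ℕ))) +
        ∑ i, (B j i : ℝ) * ((A i : ℝ) - Real.exp n * Real.exp (h i * (1 : ℕ))) := by
      rw [← Finset.sum_add_distrib]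
      apply Finset.sum_congr rfl
      intro i _
      ring
    rw [h1]
    refine (abs_add_le _ _).trans ?_
    gcongr
    refine (Finset.abs_sum_le_sum_abs _ _).trans (le_of_eq ?_)
    apply Finset.sum_congr rfl
    intro i _
    rw [abs_mul]
  have hfin := hone.trans htot
  exact absurd (lt_of_le_of_lt hfin (add_lt_add hfirst hsecond)) (by norm_num)

open Classical in
/-- For every `c > 0` and every integer `m > 1 / c` there is `τ > 0` such that, for large `n`,
the window from `n` to `n + n ^ τ` contains at most `m` exceptions to Mahler's inequality with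
constant `c`, and at most `C N ^ (1 - τ)` of the integers `1 ≤ n ≤ N` are exceptions. -/
theorem result (c : ℝ) (hc : 0 < c) (m : ℕ) (hm : 1 < c * m) :
    ∃ τ : ℝ, 0 < τ ∧ τ < 1 ∧
      (∃ n₀ : ℕ, ∀ n : ℕ, n₀ ≤ n → ∀ S : Finset ℕ,
        (∀ k ∈ S, nearestInt (Real.exp k) ≤ Real.exp (-c * k) ∧ n ≤ k ∧
          (k : ℝ) < n + (n : ℝ) ^ τ) → S.card ≤ m) ∧
      ∃ C : ℝ, ∀ N : ℕ, (((Finset.Icc 1 N).filter
        (fun n : ℕ => nearestInt (Real.exp n) ≤ Real.exp (-c * n))).card : ℝ) ≤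
          C * (N : ℝ) ^ (1 - τ) := by
  obtain ⟨τ, hτ0, hτ1, n₀, hn₀⟩ := window c hc m hm
  have hw : ∀ n : ℕ, n₀ ≤ n → ∀ S : Finset ℕ,
      (∀ k ∈ S, nearestInt (Real.exp k) ≤ Real.exp (-c * k) ∧ n ≤ k ∧
        (k : ℝ) < n + (n : ℝ) ^ τ) → S.card ≤ m := by
    intro n hn S hS
    exact hn₀ n hn S (fun k hk => ⟨(exc_iff c k).2 (hS k hk).1, (hS k hk).2⟩)
  exact ⟨τ, hτ0, hτ1, ⟨n₀, hw⟩, count_of_windows _ m n₀ hτ0 hτ1 hw⟩

end Pool.Agent.Results.MP_ccb155_nt.EveryConstant
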