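import Pool.Prelude.Def_F_ee259b87
import Pool.Agent.Lib.MP_ccb155_nt.Gap
import Pool.Agent.Lib.MP_ccb155_nt.Count

set_option autoImplicit false

open Finset Filter Topology Nebf1142c

namespace Pool.Agent.Results.MP_ccb155_nt.SparseExceptions

open Pool.Agent.Lib.MP_ccb155_nt

lemma exc_iff (c : ℝ) (n : ℕ) :
    Exc c n ↔ nearestInt (Real.exp n) ≤ Real.exp (-c * n) := by
  unfold Exc nearestInt
  rw [UnitAddCircle.norm_eq]

open Classical in
/-- For integers `1 ≤ r < c` and every `θ > (c + 1) / ((c + 1 - r) (r + 1))`: two exceptions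
`n < n'` to Mahler's inequality with constant `c` satisfy `n' - n ≥ n ^ (1 - θ)` once `n` is
large, and at most `C N ^ θ` of the integers `1 ≤ n ≤ N` are exceptions. -/
theorem result (r : ℕ) (hr : 1 ≤ r) (c θ : ℝ) (hc : (r : ℝ) < c)
    (hθ : (c + 1) / ((c + 1 - r) * (r + 1)) < θ) :
    (∃ n₀ : ℕ, ∀ n n' : ℕ, n₀ ≤ n → n < n' →
      nearestInt (Real.exp n) ≤ Real.exp (-c * n) →
      nearestInt (Real.exp n') ≤ Real.exp (-c * n') →
      (n : ℝ) ^ (1 - θ) ≤ (n' : ℝ) - n) ∧
    ∃ C : ℝ, ∀ N : ℕ, (((Finset.Icc 1 N).filter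
      (fun n : ℕ => nearestInt (Real.exp n) ≤ Real.exp (-c * n))).card : ℝ) ≤
        C * (N : ℝ) ^ θ := by
  obtain ⟨n₀, hn₀⟩ := gap r hr c θ hc hθ
  have hgap : ∀ n n' : ℕ, n₀ ≤ n → n < n' →
      nearestInt (Real.exp n) ≤ Real.exp (-c * n) →
      nearestInt (Real.exp n') ≤ Real.exp (-c * n') →
      (n : ℝ) ^ (1 - θ) ≤ (n' : ℝ) - n := fun n n' h1 h2 h3 h4 =>
    hn₀ n n' h1 h2 ((exc_iff c n).2 h3) ((exc_iff c n').2 h4)
  refine ⟨⟨n₀, hgap⟩, ?_⟩
  have hr' : (1 : ℝ) ≤ r := by exact_mod_cast hr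
  have hθ0 : 0 < θ := by
    refine lt_trans ?_ hθ
    apply div_pos
    · linarith
    · apply mul_pos <;> linarith
  by_cases hθ1 : θ < 1
  · have h1 := count_of_windows (fun n : ℕ => nearestInt (Real.exp n) ≤ Real.exp (-c * n)) 1
      (n₀ + 1) (τ := 1 - θ) (by linarith) (by linarith) (by
        intro n hn S hS
        rw [Finset.card_le_one]
        have key : ∀ a ∈ S, ∀ b ∈ S, ¬ a < b := by
          intro a ha b hb hab
          obtain ⟨pa, na, la⟩ := hS a ha
          obtain ⟨pb, nb, lb⟩ := hS b hb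
          have h2 := hgap a b (by omega) hab pa pb
          have h3 : (n : ℝ) ^ (1 - θ) ≤ (a : ℝ) ^ (1 - θ) := by
            apply Real.rpow_le_rpow (by positivity) _ (by linarith)
            exact_mod_cast na
          have h4 : (n : ℝ) ≤ a := by exact_mod_cast na
          linarith
        intro a ha b hb
        rcases lt_trichotomy a b with h | h | h
        · exact absurd h (key a ha b hb)
        · exact h
        · exact absurd h (key b hb a ha))
    obtain ⟨C, hC⟩ := h1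
    refine ⟨C, fun N => ?_⟩
    have h2 := hC N
    rwa [show (1 : ℝ) - (1 - θ) = θ by ring] at h2
  · push Not at hθ1
    refine ⟨1, fun N => ?_⟩
    have h1 : (((Finset.Icc 1 N).filter
      (fun n : ℕ => nearestInt (Real.exp n) ≤ Real.exp (-c * n))).card : ℝ) ≤ N := by
      have := Finset.card_filter_le (Finset.Icc 1 N)
        (fun n : ℕ => nearestInt (Real.exp n) ≤ Real.exp (-c * n))
      rw [Nat.card_Icc, Nat.add_sub_cancel] at this
      exact_mod_cast this
    rw [one_mul]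
    rcases Nat.eq_zero_or_pos N with hN | hN
    · subst hN
      simp only [Nat.cast_zero, Real.zero_rpow hθ0.ne'] at h1 ⊢
      exact h1
    · refine h1.trans ?_
      have hN1 : (1 : ℝ) ≤ N := by exact_mod_cast hN
      calc (N : ℝ) = (N : ℝ) ^ (1 : ℝ) := (Real.rpow_one _).symm
        _ ≤ (N : ℝ) ^ θ := Real.rpow_le_rpow_of_exponent_le hN1 hθ1

end Pool.Agent.Results.MP_ccb155_nt.SparseExceptions
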